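import Mathlib

/-!
# SLOW CHANGE: the coupling lemma of Mineka for products of polynomials (helper15)

Masses by length are polynomials with nonnegative coefficients, products are convolutions, `n1` is the total variation
norm. If every factor overlaps its shift by `h` with a fraction `c` of its mass, the product of `K` factors differs from
its shift by `h` by at most `2 / √(c (K + 1))` times its mass.
-/

set_option autoImplicit false

namespace SLO

open Finset Polynomial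

/-- the sum of the absolute values of the coefficients -/
noncomputable def n1 (p : ℝ[X]) : ℝ := ∑ i ∈ p.support, |p.coeff i|

lemma n1_nonneg (p : ℝ[X]) : 0 ≤ n1 p := sum_nonneg fun _ _ => abs_nonneg _

lemma n1_range {p : ℝ[X]} {N : ℕ} (h : p.natDegree < N) : n1 p = ∑ i ∈ range N, |p.coeff i| := by
  unfold n1
  refine Finset.sum_subset ?_ ?_
  · intro i hi
    rw [mem_range]
    exact lt_of_le_of_lt (le_natDegree_of_mem_supp i hi) h
  · intro i _ hi
    rw [notMem_support_iff.1 hi, abs_zero]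

lemma n1_le_eval {p q : ℝ[X]} (h : ∀ i, |p.coeff i| ≤ q.coeff i) : n1 p ≤ q.eval 1 := by
  obtain ⟨N, hN⟩ : ∃ N, N = p.natDegree + q.natDegree + 1 := ⟨_, rfl⟩
  rw [n1_range (N := N) (by omega), eval_eq_sum_range' (n := N) (by omega)]
  refine Finset.sum_le_sum fun i _ => ?_
  rw [one_pow, mul_one]
  exact h i

lemma n1_eq_eval {p : ℝ[X]} (h : ∀ i, 0 ≤ p.coeff i) : n1 p = p.eval 1 := by
  rw [n1_range (N := p.natDegree + 1) (by omega), eval_eq_sum_range' (n := p.natDegree + 1) (by omega)]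
  refine Finset.sum_congr rfl fun i _ => ?_
  rw [one_pow, mul_one, abs_of_nonneg (h i)]

/-- the polynomial of the absolute values -/
noncomputable def pa (p : ℝ[X]) : ℝ[X] := ∑ i ∈ p.support, monomial i |p.coeff i|

lemma pa_coeff (p : ℝ[X]) (i : ℕ) : (pa p).coeff i = |p.coeff i| := by
  unfold pa
  rw [finsetSum_coeff]
  simp only [coeff_monomial]
  rw [Finset.sum_ite_eq']
  split_ifs with h
  · rfl
  · rw [notMem_support_iff.1 h, abs_zero]

lemma pa_eval (p : ℝ[X]) : (pa p).eval 1 = n1 p := by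
  rw [← n1_eq_eval (fun i => by rw [pa_coeff]; exact abs_nonneg _)]
  refine le_antisymm ?_ ?_
  · rw [n1_range (N := (pa p).natDegree + p.natDegree + 1) (by omega),
      n1_range (p := p) (N := (pa p).natDegree + p.natDegree + 1) (by omega)]
    exact Finset.sum_le_sum fun i _ => by rw [pa_coeff, abs_abs]
  · rw [n1_range (N := (pa p).natDegree + p.natDegree + 1) (by omega),
      n1_range (p := pa p) (N := (pa p).natDegree + p.natDegree + 1) (by omega)]
    exact Finset.sum_le_sum fun i _ => by rw [pa_coeff, abs_abs]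

lemma n1_mul (p q : ℝ[X]) : n1 (p * q) ≤ n1 p * n1 q := by
  rw [← pa_eval p, ← pa_eval q, ← eval_mul]
  refine n1_le_eval fun i => ?_
  rw [coeff_mul, coeff_mul]
  refine (Finset.abs_sum_le_sum_abs _ _).trans (Finset.sum_le_sum fun x _ => ?_)
  rw [pa_coeff, pa_coeff, abs_mul]

lemma n1_add (p q : ℝ[X]) : n1 (p + q) ≤ n1 p + n1 q := by
  rw [← pa_eval p, ← pa_eval q, ← eval_add]
  refine n1_le_eval fun i => ?_
  rw [coeff_add, coeff_add, pa_coeff, pa_coeff]
  exact abs_add_le _ _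

lemma n1_zero : n1 0 = 0 := by
  unfold n1
  simp

lemma n1_sum {ι : Type*} (s : Finset ι) (f : ι → ℝ[X]) : n1 (∑ i ∈ s, f i) ≤ ∑ i ∈ s, n1 (f i) := by
  classical
  induction s using Finset.induction_on with
  | empty => rw [Finset.sum_empty, Finset.sum_empty, n1_zero]
  | insert a s ha ih =>
    rw [Finset.sum_insert ha, Finset.sum_insert ha]
    exact (n1_add _ _).trans (by linarith)

lemma n1_C (a : ℝ) : n1 (C a) = |a| := by
  rw [n1_range (N := 1) (by rw [natDegree_C]; omega)]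
  simp

lemma n1_X_pow (k : ℕ) : n1 (X ^ k : ℝ[X]) = 1 := by
  rw [n1_range (N := k + 1) (by rw [natDegree_X_pow]; omega), Finset.sum_eq_single k]
  · simp
  · intro b _ hb
    rw [coeff_X_pow, if_neg hb, abs_zero]
  · intro h
    exact absurd (mem_range.2 (Nat.lt_succ_self k)) h

lemma n1_prod {ι : Type*} (s : Finset ι) (f : ι → ℝ[X]) : n1 (∏ i ∈ s, f i) ≤ ∏ i ∈ s, n1 (f i) := by
  classical
  induction s using Finset.induction_on with
  | empty =>
    rw [Finset.prod_empty, Finset.prod_empty, ← C_1, n1_C, abs_one]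
  | insert a s ha ih =>
    rw [Finset.prod_insert ha, Finset.prod_insert ha]
    exact (n1_mul _ _).trans (mul_le_mul_of_nonneg_left ih (n1_nonneg _))

/-- substitution of a power of the variable -/
lemma n1_aeval (p : ℝ[X]) (h : ℕ) : n1 (aeval (X ^ h : ℝ[X]) p) ≤ n1 p := by
  rw [aeval_eq_sum_range' (n := p.natDegree + 1) (by omega), n1_range (p := p) (N := p.natDegree + 1) (by omega)]
  refine (n1_sum _ _).trans (Finset.sum_le_sum fun i _ => ?_)
  rw [smul_eq_C_mul, ← pow_mul]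
  refine (n1_mul _ _).trans ?_
  rw [n1_C, n1_X_pow, mul_one]

/-- the variance of the symmetric binomial law -/
lemma var_half (n : ℕ) : ∑ j ∈ range (n + 1), ((n.choose j : ℝ) / 2 ^ n) * ((n : ℝ) - 2 * j) ^ 2 = (n : ℝ) := by
  have h := congrArg (eval (1 / 2 : ℝ)) (bernsteinPolynomial.variance ℝ n)
  rw [eval_finsetSum] at h
  have h2 : ∀ j ∈ range (n + 1), eval (1 / 2 : ℝ) ((n • X - (j : ℝ[X])) ^ 2 * bernsteinPolynomial ℝ n j) =
      1 / 4 * (((n.choose j : ℝ) / 2 ^ n) * ((n : ℝ) - 2 * j) ^ 2) := by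
    intro j hj
    rw [mem_range] at hj
    have e1 : (1 / 2 : ℝ) ^ j * (1 - 1 / 2) ^ (n - j) = 1 / 2 ^ n := by
      rw [show (1 - 1 / 2 : ℝ) = 1 / 2 by norm_num, ← pow_add, show j + (n - j) = n by omega, one_div_pow]
    unfold bernsteinPolynomial
    simp only [eval_mul, eval_pow, eval_sub, eval_X, eval_natCast, eval_one, nsmul_eq_mul]
    rw [mul_assoc ((n.choose j : ℝ)), e1]
    ring
  rw [Finset.sum_congr rfl h2, ← Finset.mul_sum] at h
  simp only [eval_mul, eval_sub, eval_X, eval_one, nsmul_eq_mul, eval_natCast] at h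
  linarith

lemma sum_half (n : ℕ) : ∑ j ∈ range (n + 1), ((n.choose j : ℝ) / 2 ^ n) = 1 := by
  rw [← Finset.sum_div]
  have h := Nat.sum_range_choose n
  have h2 : (∑ j ∈ range (n + 1), (n.choose j : ℝ)) = 2 ^ n := by exact_mod_cast h
  rw [h2, div_self (by positivity)]

/-- the coefficients of the shifted symmetric binomial law -/
lemma bin_coeff (a j : ℕ) : ((1 - X) * (C (1 / 2) * (1 + X)) ^ a : ℝ[X]).coeff j =
    2 / (a + 1) * (((a + 1).choose j : ℝ) / 2 ^ (a + 1) * (((a + 1 : ℕ) : ℝ) - 2 * j)) := by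
  have e1 : ((1 - X) * (C (1 / 2) * (1 + X)) ^ a : ℝ[X]) =
      C ((1 / 2) ^ a) * (1 + X) ^ a - X * (C ((1 / 2) ^ a) * (1 + X) ^ a) := by
    rw [mul_pow, ← C_pow]
    ring
  have ha : (0 : ℝ) < a + 1 := by positivity
  have e2 : (1 / 2 : ℝ) ^ a = 2 / 2 ^ (a + 1) := by
    rw [pow_succ, one_div_pow]
    field_simp
  rw [e1, coeff_sub, e2]
  rcases Nat.eq_zero_or_pos j with h0 | h0
  · subst h0
    rw [coeff_X_mul_zero, coeff_C_mul, coeff_one_add_X_pow]
    simp
    field_simp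
  · obtain ⟨i, rfl⟩ : ∃ i, j = i + 1 := ⟨j - 1, by omega⟩
    rw [coeff_X_mul, coeff_C_mul, coeff_C_mul, coeff_one_add_X_pow, coeff_one_add_X_pow]
    have h1 : ((a.choose (i + 1) : ℝ)) * (a + 1) = ((a + 1).choose (i + 1) : ℝ) * ((a + 1 : ℝ) - (i + 1)) := by
      rcases Nat.lt_or_ge (a + 1) (i + 1) with h2 | h2
      · rw [Nat.choose_eq_zero_of_lt (show a < i + 1 by omega), Nat.choose_eq_zero_of_lt h2]
        simp
      · have h3 := Nat.choose_mul_succ_eq a (i + 1)
        have h4 : ((a.choose (i + 1) * (a + 1) : ℕ) : ℝ) = (((a + 1).choose (i + 1) * (a + 1 - (i + 1)) : ℕ) : ℝ) := by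
          exact_mod_cast h3
        rw [show a + 1 - (i + 1) = a - i by omega] at h4
        push_cast [Nat.cast_sub (show i ≤ a by omega)] at h4
        rw [h4]
        ring
    have h2 : ((a.choose i : ℝ)) * (a + 1) = ((a + 1).choose (i + 1) : ℝ) * (i + 1) := by
      have h3 := Nat.add_one_mul_choose_eq a i
      have h4 : (((a + 1) * a.choose i : ℕ) : ℝ) = (((a + 1).choose (i + 1) * (i + 1) : ℕ) : ℝ) := by exact_mod_cast h3
      push_cast at h4
      linarith
    have h3 : (a.choose (i + 1) : ℝ) - a.choose i =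
        ((a + 1).choose (i + 1) : ℝ) * (((a + 1 : ℝ)) - 2 * (i + 1)) / (a + 1) := by
      rw [eq_div_iff ha.ne']
      linarith
    rw [← mul_sub, h3]
    push_cast
    field_simp

/-- **the total variation distance of the symmetric binomial law from its shift** -/
lemma bin_one (a : ℕ) : n1 ((1 - X) * (C (1 / 2) * (1 + X)) ^ a : ℝ[X]) ≤ 2 / Real.sqrt (a + 1) := by
  have ha : (0 : ℝ) < a + 1 := by positivity
  obtain ⟨n, hn⟩ : ∃ n, n = a + 1 := ⟨_, rfl⟩
  have hdeg : ((1 - X) * (C (1 / 2) * (1 + X)) ^ a : ℝ[X]).natDegree < a + 1 + 1 := by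
    have h1 : ((1 - X : ℝ[X])).natDegree ≤ 1 := by
      refine (natDegree_sub_le _ _).trans ?_
      simp
    have h2 : (C (1 / 2) * (1 + X) : ℝ[X]).natDegree ≤ 1 := by
      refine natDegree_C_mul_le _ _ |>.trans ((natDegree_add_le _ _).trans ?_)
      simp
    have h3 := natDegree_mul_le (p := (1 - X : ℝ[X])) (q := (C (1 / 2) * (1 + X)) ^ a)
    have h4 := natDegree_pow_le (p := (C (1 / 2) * (1 + X) : ℝ[X])) (n := a)
    have h5 : a * (C (1 / 2) * (1 + X) : ℝ[X]).natDegree ≤ a * 1 := Nat.mul_le_mul_left _ h2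
    omega
  rw [n1_range hdeg]
  have e1 : ∑ j ∈ range (a + 1 + 1), |((1 - X) * (C (1 / 2) * (1 + X)) ^ a : ℝ[X]).coeff j| =
      2 / (a + 1) * ∑ j ∈ range (n + 1), ((n.choose j : ℝ) / 2 ^ n) * |(n : ℝ) - 2 * j| := by
    rw [Finset.mul_sum, hn]
    refine Finset.sum_congr rfl fun j _ => ?_
    rw [bin_coeff, abs_mul, abs_mul, abs_of_nonneg (show (0 : ℝ) ≤ 2 / (a + 1) by positivity),
      abs_of_nonneg (show (0 : ℝ) ≤ ((a + 1).choose j : ℝ) / 2 ^ (a + 1) by positivity)]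
  rw [e1]
  have h2 : ∑ j ∈ range (n + 1), ((n.choose j : ℝ) / 2 ^ n) * |(n : ℝ) - 2 * j| ≤ Real.sqrt n := by
    apply Real.le_sqrt_of_sq_le
    have h3 := Finset.sum_mul_sq_le_sq_mul_sq (range (n + 1)) (fun j => Real.sqrt ((n.choose j : ℝ) / 2 ^ n))
      (fun j => Real.sqrt ((n.choose j : ℝ) / 2 ^ n) * |(n : ℝ) - 2 * j|)
    have h4 : ∀ j, Real.sqrt ((n.choose j : ℝ) / 2 ^ n) * Real.sqrt ((n.choose j : ℝ) / 2 ^ n) = (n.choose j : ℝ) / 2 ^ n :=
      fun j => Real.mul_self_sqrt (by positivity)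
    have e2 : ∑ j ∈ range (n + 1), Real.sqrt ((n.choose j : ℝ) / 2 ^ n) *
        (Real.sqrt ((n.choose j : ℝ) / 2 ^ n) * |(n : ℝ) - 2 * j|) =
        ∑ j ∈ range (n + 1), ((n.choose j : ℝ) / 2 ^ n) * |(n : ℝ) - 2 * j| :=
      Finset.sum_congr rfl fun j _ => by rw [← mul_assoc, h4]
    have e3 : ∑ j ∈ range (n + 1), Real.sqrt ((n.choose j : ℝ) / 2 ^ n) ^ 2 = 1 := by
      rw [← sum_half n]
      exact Finset.sum_congr rfl fun j _ => Real.sq_sqrt (by positivity)
    have e4 : ∑ j ∈ range (n + 1), (Real.sqrt ((n.choose j : ℝ) / 2 ^ n) * |(n : ℝ) - 2 * j|) ^ 2 = n := by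
      refine (Finset.sum_congr rfl fun j _ => ?_).trans (var_half n)
      rw [mul_pow, Real.sq_sqrt (by positivity), sq_abs]
    rw [e2, e3, e4, one_mul] at h3
    exact h3
  have hn' : (n : ℝ) = a + 1 := by
    rw [hn]
    push_cast
    ring
  rw [hn'] at h2
  have h5 : 0 < Real.sqrt (a + 1) := Real.sqrt_pos.2 ha
  calc 2 / ((a : ℝ) + 1) * ∑ j ∈ range (n + 1), ((n.choose j : ℝ) / 2 ^ n) * |(n : ℝ) - 2 * j|
      ≤ 2 / ((a : ℝ) + 1) * Real.sqrt (a + 1) := by
        refine mul_le_mul_of_nonneg_left ?_ (by positivity)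
        rw [← hn']
        rw [← hn'] at h2
        exact h2
    _ = 2 / Real.sqrt (a + 1) := by
        have h6 : Real.sqrt (a + 1) * Real.sqrt (a + 1) = a + 1 := Real.mul_self_sqrt ha.le
        rw [div_mul_eq_mul_div, div_eq_div_iff ha.ne' h5.ne', mul_assoc, h6]

/-- the same for the shift by h -/
lemma bin_shift (a h : ℕ) : n1 ((1 - X ^ h) * (C (1 / 2) * (1 + X ^ h)) ^ a : ℝ[X]) ≤ 2 / Real.sqrt (a + 1) := by
  refine le_trans (le_of_eq ?_) ((n1_aeval ((1 - X) * (C (1 / 2) * (1 + X)) ^ a : ℝ[X]) h).trans (bin_one a))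
  congr 1
  simp only [map_mul, map_sub, map_one, map_pow, map_add, aeval_X, aeval_C]
  rfl

/-- **decomposition of a mass that overlaps its shift** -/
lemma dec {v : ℝ[X]} {m c : ℝ} {h : ℕ} (hv : ∀ i, 0 ≤ v.coeff i) (hm : v.eval 1 = m) (hc : 0 ≤ c)
    (hd : n1 ((1 - X ^ h) * v) ≤ 2 * (1 - c) * m) : ∃ lam rho : ℝ[X], (∀ i, 0 ≤ lam.coeff i) ∧ (∀ i, 0 ≤ rho.coeff i) ∧
    v = C (1 / 2) * (1 + X ^ h) * lam + rho ∧ lam.eval 1 = c * m ∧ rho.eval 1 = (1 - c) * m := by
  obtain ⟨N, hN⟩ : ∃ N, N = v.natDegree + 1 := ⟨_, rfl⟩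
  have hz : ∀ i, N ≤ i → v.coeff i = 0 := fun i hi => coeff_eq_zero_of_natDegree_lt (by omega)
  obtain ⟨l0, hl0⟩ : ∃ l0 : ℝ[X], l0 = ∑ i ∈ range N, monomial i (min (v.coeff i) (v.coeff (i + h))) := ⟨_, rfl⟩
  have hl : ∀ i, l0.coeff i = min (v.coeff i) (v.coeff (i + h)) := by
    intro i
    rw [hl0, finsetSum_coeff]
    simp only [coeff_monomial]
    rw [Finset.sum_ite_eq']
    split_ifs with hi
    · rfl
    · rw [mem_range, not_lt] at hi
      rw [hz i hi, hz (i + h) (by omega), min_self]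
  have hl1 : l0.eval 1 = ∑ i ∈ range N, min (v.coeff i) (v.coeff (i + h)) := by
    rw [hl0, eval_finsetSum]
    refine Finset.sum_congr rfl fun i _ => ?_
    rw [eval_monomial, one_pow, mul_one]
  have hm1 : m = ∑ i ∈ range N, v.coeff i := by
    rw [← hm, eval_eq_sum_range' (n := N) (by omega)]
    exact Finset.sum_congr rfl fun i _ => by rw [one_pow, mul_one]
  have hm0 : 0 ≤ m := by
    rw [hm1]
    exact Finset.sum_nonneg fun i _ => hv i
  -- the overlap
  have hov : n1 ((1 - X ^ h) * v) = 2 * m - 2 * l0.eval 1 := by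
    have hc1 : ∀ i, ((1 - X ^ h) * v).coeff i = v.coeff i - if h ≤ i then v.coeff (i - h) else 0 := by
      intro i
      rw [sub_mul, one_mul, coeff_sub, coeff_X_pow_mul']
    have hdeg : ((1 - X ^ h) * v).natDegree < N + h := by
      have h1 : ((1 - X ^ h : ℝ[X])).natDegree ≤ h := by
        refine (natDegree_sub_le _ _).trans ?_
        simp
      have h3 := natDegree_mul_le (p := (1 - X ^ h : ℝ[X])) (q := v)
      omega
    rw [n1_range hdeg, add_comm N h, Finset.sum_range_add]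
    have e1 : ∑ i ∈ range h, |((1 - X ^ h) * v).coeff i| = ∑ i ∈ range h, v.coeff i := by
      refine Finset.sum_congr rfl fun i hi => ?_
      rw [mem_range] at hi
      rw [hc1, if_neg (by omega), sub_zero, abs_of_nonneg (hv i)]
    have e2 : ∑ i ∈ range N, |((1 - X ^ h) * v).coeff (h + i)| =
        ∑ i ∈ range N, (v.coeff (h + i) + v.coeff i - 2 * min (v.coeff i) (v.coeff (i + h))) := by
      refine Finset.sum_congr rfl fun i _ => ?_
      rw [hc1, if_pos (by omega), show h + i - h = i by omega, add_comm i h]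
      rcases le_total (v.coeff (h + i)) (v.coeff i) with h1 | h1
      · rw [min_eq_right h1, abs_of_nonpos (by linarith)]
        ring
      · rw [min_eq_left h1, abs_of_nonneg (by linarith)]
        ring
    have e3 : ∑ i ∈ range h, v.coeff i + ∑ i ∈ range N, v.coeff (h + i) = m := by
      rw [← Finset.sum_range_add, hm1, add_comm h N, Finset.sum_range_add]
      have : ∑ x ∈ range h, v.coeff (N + x) = 0 := Finset.sum_eq_zero fun i _ => hz _ (by omega)
      rw [this, add_zero]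
    rw [e1, e2, hl1, Finset.sum_sub_distrib, Finset.sum_add_distrib, ← hm1, ← Finset.mul_sum]
    linarith
  have hL : c * m ≤ l0.eval 1 := by
    rw [hov] at hd
    linarith
  have hL0 : 0 ≤ l0.eval 1 := (mul_nonneg hc hm0).trans hL
  obtain ⟨s, hs⟩ : ∃ s : ℝ, s = c * m / l0.eval 1 := ⟨_, rfl⟩
  have hs0 : 0 ≤ s := by
    rw [hs]
    exact div_nonneg (mul_nonneg hc hm0) hL0
  have hs1 : s ≤ 1 := by
    rw [hs]
    exact div_le_one_of_le₀ hL hL0
  have hsm : s * l0.eval 1 = c * m := by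
    rcases hL0.eq_or_lt with h0 | h0
    · rw [← h0, mul_zero]
      rw [← h0] at hL
      exact le_antisymm (mul_nonneg hc hm0) hL
    · rw [hs, div_mul_cancel₀ _ h0.ne']
  have hlam : ∀ i, (C s * l0).coeff i = s * min (v.coeff i) (v.coeff (i + h)) := fun i => by
    rw [coeff_C_mul, hl]
  have hmin : ∀ i, 0 ≤ min (v.coeff i) (v.coeff (i + h)) := fun i => le_min (hv _) (hv _)
  refine ⟨C s * l0, v - C (1 / 2) * (1 + X ^ h) * (C s * l0), fun i => ?_, fun i => ?_, by ring, ?_, ?_⟩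
  · rw [hlam]
    exact mul_nonneg hs0 (hmin i)
  · have e1 : C (1 / 2) * (1 + X ^ h) * (C s * l0) = C (1 / 2) * ((C s * l0) + X ^ h * (C s * l0)) := by ring
    rw [coeff_sub, e1, coeff_C_mul, coeff_add, coeff_X_pow_mul', hlam]
    have h1 : s * min (v.coeff i) (v.coeff (i + h)) ≤ v.coeff i := by
      have := min_le_left (v.coeff i) (v.coeff (i + h))
      have := hmin i
      nlinarith
    have h2 : (if h ≤ i then (C s * l0).coeff (i - h) else 0) ≤ v.coeff i := by
      split_ifs with hi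
      · rw [hlam, show i - h + h = i by omega]
        have := min_le_right (v.coeff (i - h)) (v.coeff i)
        have := le_min (hv (i - h)) (hv i)
        nlinarith
      · exact hv i
    linarith
  · rw [eval_mul, eval_C, hsm]
  · rw [eval_sub, eval_mul, eval_mul, eval_mul, eval_C, eval_C, hsm, hm, eval_add, eval_one, eval_pow, eval_X, one_pow]
    ring

/-- the mean of `1 / (a + 1)` for the binomial law -/
lemma bin_inv (K : ℕ) {c : ℝ} (hc : 0 < c) (hc1 : c ≤ 1) :
    ∑ a ∈ range (K + 1), (K.choose a : ℝ) * (c ^ a * (1 - c) ^ (K - a)) * (1 / (a + 1)) ≤ 1 / (c * (K + 1)) := by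
  have hK : (0 : ℝ) < K + 1 := by positivity
  have h1 : ∀ a ∈ range (K + 1), (K.choose a : ℝ) * (c ^ a * (1 - c) ^ (K - a)) * (1 / (a + 1)) =
      1 / (c * (K + 1)) * (((K + 1).choose (a + 1) : ℝ) * (c ^ (a + 1) * (1 - c) ^ (K + 1 - (a + 1)))) := by
    intro a _
    have h3 := Nat.add_one_mul_choose_eq K a
    have h4 : (((K + 1) * K.choose a : ℕ) : ℝ) = (((K + 1).choose (a + 1) * (a + 1) : ℕ) : ℝ) := by exact_mod_cast h3
    push_cast at h4
    have h5 : (K.choose a : ℝ) = ((K + 1).choose (a + 1) : ℝ) * (a + 1) / (K + 1) := by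
      rw [eq_div_iff hK.ne']
      linarith
    rw [h5, show K + 1 - (a + 1) = K - a by omega, pow_succ]
    field_simp
  rw [Finset.sum_congr rfl h1, ← Finset.mul_sum]
  refine mul_le_of_le_one_right (by positivity) ?_
  have h2 : ∑ b ∈ range (K + 1 + 1), ((K + 1).choose b : ℝ) * (c ^ b * (1 - c) ^ (K + 1 - b)) = 1 := by
    have h3 := add_pow c (1 - c) (K + 1)
    rw [show c + (1 - c) = 1 by ring, one_pow] at h3
    exact Eq.trans (Finset.sum_congr rfl fun b _ => by ring) h3.symm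
  rw [Finset.sum_range_succ'] at h2
  have h3 : (0 : ℝ) ≤ ((K + 1).choose 0 : ℝ) * (c ^ 0 * (1 - c) ^ (K + 1 - 0)) := by
    have : 0 ≤ 1 - c := by linarith
    positivity
  linarith

/-- the mean of `2 / √(a + 1)` for the binomial law -/
lemma bin_sqrt (K : ℕ) {c : ℝ} (hc : 0 < c) (hc1 : c ≤ 1) :
    ∑ a ∈ range (K + 1), (K.choose a : ℝ) * (c ^ a * (1 - c) ^ (K - a)) * (2 / Real.sqrt (a + 1)) ≤
      2 / Real.sqrt (c * (K + 1)) := by
  have h0 : 0 ≤ 1 - c := by linarith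
  obtain ⟨w, hw⟩ : ∃ w : ℕ → ℝ, w = fun a => (K.choose a : ℝ) * (c ^ a * (1 - c) ^ (K - a)) := ⟨_, rfl⟩
  have hw0 : ∀ a, 0 ≤ w a := fun a => by
    rw [hw]
    positivity
  have hsum : ∑ a ∈ range (K + 1), w a = 1 := by
    have h3 := add_pow c (1 - c) K
    rw [show c + (1 - c) = 1 by ring, one_pow] at h3
    rw [hw]
    exact Eq.trans (Finset.sum_congr rfl fun b _ => by ring) h3.symm
  have hinv : ∑ a ∈ range (K + 1), w a * (1 / (a + 1)) ≤ 1 / (c * (K + 1)) := by
    rw [hw]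
    exact bin_inv K hc hc1
  have key : ∑ a ∈ range (K + 1), w a * (1 / Real.sqrt (a + 1)) ≤ 1 / Real.sqrt (c * (K + 1)) := by
    rw [← Real.sqrt_one, ← Real.sqrt_div zero_le_one, Real.sqrt_one]
    apply Real.le_sqrt_of_sq_le
    have h3 := Finset.sum_mul_sq_le_sq_mul_sq (range (K + 1)) (fun a => Real.sqrt (w a))
      (fun a => Real.sqrt (w a) * (1 / Real.sqrt (a + 1)))
    have e2 : ∑ a ∈ range (K + 1), Real.sqrt (w a) * (Real.sqrt (w a) * (1 / Real.sqrt (a + 1))) =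
        ∑ a ∈ range (K + 1), w a * (1 / Real.sqrt (a + 1)) :=
      Finset.sum_congr rfl fun a _ => by rw [← mul_assoc, Real.mul_self_sqrt (hw0 a)]
    have e3 : ∑ a ∈ range (K + 1), Real.sqrt (w a) ^ 2 = 1 := by
      rw [← hsum]
      exact Finset.sum_congr rfl fun a _ => Real.sq_sqrt (hw0 a)
    have e4 : ∑ a ∈ range (K + 1), (Real.sqrt (w a) * (1 / Real.sqrt (a + 1))) ^ 2 =
        ∑ a ∈ range (K + 1), w a * (1 / (a + 1)) := by
      refine Finset.sum_congr rfl fun a _ => ?_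
      rw [mul_pow, Real.sq_sqrt (hw0 a), div_pow, one_pow, Real.sq_sqrt (by positivity)]
    rw [e2, e3, e4, one_mul] at h3
    exact h3.trans hinv
  calc ∑ a ∈ range (K + 1), (K.choose a : ℝ) * (c ^ a * (1 - c) ^ (K - a)) * (2 / Real.sqrt (a + 1))
      = 2 * ∑ a ∈ range (K + 1), w a * (1 / Real.sqrt (a + 1)) := by
        rw [Finset.mul_sum, hw]
        exact Finset.sum_congr rfl fun a _ => by ring
    _ ≤ 2 * (1 / Real.sqrt (c * (K + 1))) := by linarith
    _ = _ := by ring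

/-- **the coupling lemma of Mineka**: a product of masses each of which overlaps its shift by `h` -/
theorem mineka {ι : Type*} (s : Finset ι) (v : ι → ℝ[X]) (m : ι → ℝ) {c : ℝ} (h : ℕ) (hc : 0 < c) (hc1 : c ≤ 1)
    (hv : ∀ i ∈ s, ∀ x, 0 ≤ (v i).coeff x) (hm : ∀ i ∈ s, (v i).eval 1 = m i)
    (hd : ∀ i ∈ s, n1 ((1 - X ^ h) * v i) ≤ 2 * (1 - c) * m i) :
    n1 ((1 - X ^ h) * ∏ i ∈ s, v i) ≤ 2 / Real.sqrt (c * (s.card + 1)) * ∏ i ∈ s, m i := by
  classical
  have hdec : ∀ i, i ∈ s → ∃ lam rho : ℝ[X], (∀ x, 0 ≤ lam.coeff x) ∧ (∀ x, 0 ≤ rho.coeff x) ∧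
      v i = C (1 / 2) * (1 + X ^ h) * lam + rho ∧ lam.eval 1 = c * m i ∧ rho.eval 1 = (1 - c) * m i :=
    fun i hi => dec (hv i hi) (hm i hi) hc.le (hd i hi)
  choose! lam rho h1 h2 h3 h4 h5 using hdec
  have hm0 : ∀ i ∈ s, 0 ≤ m i := by
    intro i hi
    rw [← hm i hi, ← n1_eq_eval (hv i hi)]
    exact n1_nonneg _
  have h0 : 0 ≤ 1 - c := by linarith
  rw [Finset.prod_congr rfl h3, Finset.prod_add, Finset.mul_sum]
  refine (n1_sum _ _).trans ?_
  have hterm : ∀ t ∈ s.powerset, n1 ((1 - X ^ h) * ((∏ i ∈ t, C (1 / 2) * (1 + X ^ h) * lam i) * ∏ i ∈ s \ t, rho i)) ≤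
      (c ^ t.card * (1 - c) ^ (s.card - t.card) * (2 / Real.sqrt (t.card + 1))) * ∏ i ∈ s, m i := by
    intro t ht
    rw [mem_powerset] at ht
    have e1 : (1 - X ^ h) * ((∏ i ∈ t, C (1 / 2) * (1 + X ^ h) * lam i) * ∏ i ∈ s \ t, rho i) =
        ((1 - X ^ h) * (C (1 / 2) * (1 + X ^ h)) ^ t.card) * ((∏ i ∈ t, lam i) * ∏ i ∈ s \ t, rho i) := by
      rw [Finset.prod_mul_distrib, Finset.prod_const]
      ring
    have e2 : n1 (∏ i ∈ t, lam i) ≤ c ^ t.card * ∏ i ∈ t, m i := by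
      refine (n1_prod _ _).trans (le_of_eq ?_)
      rw [← Finset.prod_const, ← Finset.prod_mul_distrib]
      exact Finset.prod_congr rfl fun i hi => by rw [n1_eq_eval (h1 i (ht hi)), h4 i (ht hi)]
    have e3 : n1 (∏ i ∈ s \ t, rho i) ≤ (1 - c) ^ (s.card - t.card) * ∏ i ∈ s \ t, m i := by
      refine (n1_prod _ _).trans (le_of_eq ?_)
      rw [← Finset.card_sdiff_of_subset ht, ← Finset.prod_const, ← Finset.prod_mul_distrib]
      refine Finset.prod_congr rfl fun i hi => ?_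
      have hi' := (mem_sdiff.1 hi).1
      rw [n1_eq_eval (h2 i hi'), h5 i hi']
    have e4 : 0 ≤ ∏ i ∈ t, m i := Finset.prod_nonneg fun i hi => hm0 i (ht hi)
    have e5 : 0 ≤ ∏ i ∈ s \ t, m i := Finset.prod_nonneg fun i hi => hm0 i (mem_sdiff.1 hi).1
    have e6 : (∏ i ∈ s \ t, m i) * ∏ i ∈ t, m i = ∏ i ∈ s, m i := Finset.prod_sdiff ht
    rw [e1]
    calc n1 (((1 - X ^ h) * (C (1 / 2) * (1 + X ^ h)) ^ t.card) * ((∏ i ∈ t, lam i) * ∏ i ∈ s \ t, rho i))
        ≤ (2 / Real.sqrt (t.card + 1)) * ((c ^ t.card * ∏ i ∈ t, m i) * ((1 - c) ^ (s.card - t.card) *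
          ∏ i ∈ s \ t, m i)) := by
          refine (n1_mul _ _).trans (mul_le_mul (bin_shift _ _) ((n1_mul _ _).trans ?_) (n1_nonneg _) (by positivity))
          exact mul_le_mul e2 e3 (n1_nonneg _) (mul_nonneg (by positivity) e4)
      _ = (c ^ t.card * (1 - c) ^ (s.card - t.card) * (2 / Real.sqrt (t.card + 1))) *
          ((∏ i ∈ s \ t, m i) * ∏ i ∈ t, m i) := by ring
      _ = _ := by rw [e6]
  refine (Finset.sum_le_sum hterm).trans ?_
  rw [← Finset.sum_mul]
  refine mul_le_mul_of_nonneg_right ?_ (Finset.prod_nonneg hm0)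
  have e7 := Finset.sum_powerset_apply_card (fun a : ℕ => c ^ a * (1 - c) ^ (s.card - a) * (2 / Real.sqrt (a + 1))) (x := s)
  rw [e7]
  refine le_trans (le_of_eq ?_) (bin_sqrt s.card hc hc1)
  exact Finset.sum_congr rfl fun a _ => by rw [nsmul_eq_mul]; ring

/-- a bound of one factor by its largest coefficient -/
lemma coeff_mul_le {p w : ℝ[X]} {M : ℝ} (hw : ∀ i, |w.coeff i| ≤ M) (x : ℕ) : |(p * w).coeff x| ≤ n1 p * M := by
  rw [coeff_mul]
  refine (Finset.abs_sum_le_sum_abs _ _).trans ?_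
  have h1 : ∀ y ∈ antidiagonal x, |p.coeff y.1 * w.coeff y.2| ≤ |p.coeff y.1| * M := by
    intro y _
    rw [abs_mul]
    exact mul_le_mul_of_nonneg_left (hw _) (abs_nonneg _)
  refine (Finset.sum_le_sum h1).trans ?_
  rw [← Finset.sum_mul]
  refine mul_le_mul_of_nonneg_right ?_ ((abs_nonneg _).trans (hw 0))
  rw [Finset.Nat.sum_antidiagonal_eq_sum_range_succ_mk]
  rw [n1_range (N := p.natDegree + x + 1) (by omega)]
  exact Finset.sum_le_sum_of_subset_of_nonneg (Finset.range_mono (by omega)) fun i _ _ => abs_nonneg _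

/-- **Mineka, pointwise**: with one more factor with small coefficients -/
theorem mineka_sup {ι : Type*} (s : Finset ι) (v : ι → ℝ[X]) (m : ι → ℝ) {c M : ℝ} (h : ℕ) (hc : 0 < c) (hc1 : c ≤ 1)
    (hv : ∀ i ∈ s, ∀ x, 0 ≤ (v i).coeff x) (hm : ∀ i ∈ s, (v i).eval 1 = m i)
    (hd : ∀ i ∈ s, n1 ((1 - X ^ h) * v i) ≤ 2 * (1 - c) * m i) (w : ℝ[X]) (hw : ∀ i, |w.coeff i| ≤ M) (x : ℕ) :
    |((1 - X ^ h) * ((∏ i ∈ s, v i) * w)).coeff x| ≤ 2 / Real.sqrt (c * (s.card + 1)) * (∏ i ∈ s, m i) * M := by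
  rw [← mul_assoc]
  refine (coeff_mul_le hw x).trans (mul_le_mul_of_nonneg_right (mineka s v m h hc hc1 hv hm hd) ?_)
  exact (abs_nonneg _).trans (hw 0)

/-- **the overlap of a mass with a lower bound on an interval of one parity** -/
theorem overlap_of {v : ℝ[X]} {m a : ℝ} {b0 L k : ℕ} (hv : ∀ i, 0 ≤ v.coeff i) (hm : v.eval 1 = m)
    (hlow : ∀ i, i ≤ L → a ≤ v.coeff (b0 + 2 * i)) (hk : k ≤ L) :
    n1 ((1 - X ^ (2 * k)) * v) ≤ 2 * m - 2 * (a * (L - k + 1)) := by
  obtain ⟨N, hN⟩ : ∃ N, N = v.natDegree + 1 + (b0 + 2 * L + 1) := ⟨_, rfl⟩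
  have hz : ∀ i, N ≤ i → v.coeff i = 0 := fun i hi => coeff_eq_zero_of_natDegree_lt (by omega)
  obtain ⟨h, hh⟩ : ∃ h, h = 2 * k := ⟨_, rfl⟩
  have hm1 : m = ∑ i ∈ range N, v.coeff i := by
    rw [← hm, eval_eq_sum_range' (n := N) (by omega)]
    exact Finset.sum_congr rfl fun i _ => by rw [one_pow, mul_one]
  have hc1 : ∀ i, ((1 - X ^ h) * v).coeff i = v.coeff i - if h ≤ i then v.coeff (i - h) else 0 := by
    intro i
    rw [sub_mul, one_mul, coeff_sub, coeff_X_pow_mul']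
  have hdeg : ((1 - X ^ h) * v).natDegree < N + h := by
    have h1 : ((1 - X ^ h : ℝ[X])).natDegree ≤ h := by
      refine (natDegree_sub_le _ _).trans ?_
      simp
    have h3 := natDegree_mul_le (p := (1 - X ^ h : ℝ[X])) (q := v)
    omega
  rw [← hh, n1_range hdeg, add_comm N h, Finset.sum_range_add]
  have e1 : ∑ i ∈ range h, |((1 - X ^ h) * v).coeff i| = ∑ i ∈ range h, v.coeff i := by
    refine Finset.sum_congr rfl fun i hi => ?_
    rw [mem_range] at hi
    rw [hc1, if_neg (by omega), sub_zero, abs_of_nonneg (hv i)]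
  have e2 : ∑ i ∈ range N, |((1 - X ^ h) * v).coeff (h + i)| =
      ∑ i ∈ range N, (v.coeff (h + i) + v.coeff i - 2 * min (v.coeff i) (v.coeff (i + h))) := by
    refine Finset.sum_congr rfl fun i _ => ?_
    rw [hc1, if_pos (by omega), show h + i - h = i by omega, add_comm i h]
    rcases le_total (v.coeff (h + i)) (v.coeff i) with h1 | h1
    · rw [min_eq_right h1, abs_of_nonpos (by linarith)]
      ring
    · rw [min_eq_left h1, abs_of_nonneg (by linarith)]
      ring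
  have e3 : ∑ i ∈ range h, v.coeff i + ∑ i ∈ range N, v.coeff (h + i) = m := by
    rw [← Finset.sum_range_add, hm1, add_comm h N, Finset.sum_range_add]
    have : ∑ x ∈ range h, v.coeff (N + x) = 0 := Finset.sum_eq_zero fun i _ => hz _ (by omega)
    rw [this, add_zero]
  have e4 : a * (L - k + 1) ≤ ∑ i ∈ range N, min (v.coeff i) (v.coeff (i + h)) := by
    have h1 : ∑ j ∈ range (L - k + 1), a ≤ ∑ j ∈ range (L - k + 1), min (v.coeff (b0 + 2 * j)) (v.coeff (b0 + 2 * j + h)) := by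
      refine Finset.sum_le_sum fun j hj => ?_
      rw [mem_range] at hj
      refine le_min (hlow j (by omega)) ?_
      rw [hh, show b0 + 2 * j + 2 * k = b0 + 2 * (j + k) by ring]
      exact hlow (j + k) (by omega)
    rw [Finset.sum_const, card_range, nsmul_eq_mul] at h1
    push_cast [Nat.cast_sub hk] at h1
    have h2 : ∑ j ∈ range (L - k + 1), min (v.coeff (b0 + 2 * j)) (v.coeff (b0 + 2 * j + h)) =
        ∑ i ∈ (range (L - k + 1)).image (fun j => b0 + 2 * j), min (v.coeff i) (v.coeff (i + h)) := by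
      rw [Finset.sum_image]
      intro x _ y _ hxy
      simp only at hxy
      omega
    rw [h2] at h1
    refine (le_of_eq (by ring)).trans (h1.trans (Finset.sum_le_sum_of_subset_of_nonneg ?_ fun i _ _ => le_min (hv _) (hv _)))
    intro x hx
    obtain ⟨j, hj, rfl⟩ := Finset.mem_image.1 hx
    rw [mem_range] at hj ⊢
    omega
  rw [e1, e2, Finset.sum_sub_distrib, Finset.sum_add_distrib, ← hm1, ← Finset.mul_sum]
  linarith

end SLO
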